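import Pool.Agent.H92.ST.MainZ

/-!
# Tuples of elements of a set which is dense in the Bohr neighbourhoods of 0 (MP_f6c4b6_nt)
-/

set_option autoImplicit false

namespace Pool.Agent.H92.BK

open Filter Pool.Agent.H92.BH Pool.Agent.H74.BT Pool.Agent.H92.ST

/-- `b` is not in `A`, an odd number of elements of `A` are below `b` and at least one is above `b`: if
`e_0 < e_1 < ...` are the elements of `A`, then `b` lies strictly between `e_(2t)` and `e_(2t+1)` for some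
`t` -/
def InGap (A : Finset ℕ) (b : ℕ) : Prop :=
  b ∉ A ∧ Odd (A.filter (fun x => x < b)).card ∧ ∃ x ∈ A, b < x

/-- for some colour `i`, every subset `F` of `A` is for infinitely many `N` the set of all `b` in `A` or in a
gap of `A` such that `N + b` is a prime of colour `i` -/
def Patterns {r : ℕ} (c : ℕ → Fin r) (A : Finset ℕ) : Prop :=
  ∃ i : Fin r, ∀ F : Finset ℕ, F ⊆ A → {N : ℕ | ∀ b : ℕ, (b ∈ A ∨ InGap A b) →
    (((N + b).Prime ∧ c (N + b) = i) ↔ b ∈ F)}.Infinite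

lemma inGapZ_cast {A : Finset ℕ} {b : ℕ} (h : InGap A b) :
    InGapZ (A.image (fun x : ℕ => (x : ℤ))) (b : ℤ) := by
  classical
  obtain ⟨h1, h2, x, hx, hbx⟩ := h
  refine ⟨?_, ?_, (x : ℤ), Finset.mem_image_of_mem _ hx, by exact_mod_cast hbx⟩
  · rw [Finset.mem_image]
    rintro ⟨y, hy, hyb⟩
    have : y = b := by exact_mod_cast hyb
    exact h1 (this ▸ hy)
  · rw [Finset.filter_image, Finset.card_image_of_injective _ Nat.cast_injective]
    have e : (A.filter fun a : ℕ => (a : ℤ) < (b : ℤ)) = A.filter (fun x => x < b) := by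
      refine Finset.filter_congr fun a _ => ?_
      exact Nat.cast_lt
    rw [e]
    exact h2

lemma patterns_of_extZ {r : ℕ} (c : ℕ → Fin r) (A : Finset ℕ)
    (h : ExtZ c (A.image (fun x : ℕ => (x : ℤ)))) : Patterns c A := by
  classical
  obtain ⟨i, 𝓕, h0, h1⟩ := h
  obtain ⟨-, h2, -⟩ := h1 _ h0
  refine ⟨i, fun F hF => ?_⟩
  refine (h2 (F.image (fun x : ℕ => (x : ℤ))) (Finset.image_subset_image hF)).mono ?_
  intro N hN b hb
  have h3 := hN (b : ℤ) (hb.imp (fun h => Finset.mem_image_of_mem _ h) inGapZ_cast)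
  have h4 : ((N : ℤ) + (b : ℤ)).toNat = N + b := by
    rw [← Nat.cast_add, Int.toNat_natCast]
  rw [h4] at h3
  rw [h3, Finset.mem_image]
  constructor
  · rintro ⟨y, hy, hyb⟩
    have : y = b := by exact_mod_cast hyb
    exact this ▸ hy
  · intro h
    exact ⟨b, h, rfl⟩

open Classical in
/-- positive upper Banach density in every Bohr neighbourhood of `0` -/
def DenseInBohr (R : Set ℕ) : Prop :=
  ∀ (J : ℕ) (α : Fin J → ℝ) (ρ : ℝ), 0 < ρ → ∃ δ : ℝ, 0 < δ ∧ ∀ L₀ : ℕ, ∃ L : ℕ, L₀ ≤ L ∧ 0 < L ∧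
    ∃ a : ℕ, δ * L ≤ (((Finset.Ioc a (a + L)).filter (fun h : ℕ =>
      h ∈ R ∧ ∀ i, ∃ m : ℤ, |(h : ℝ) * α i - m| < ρ)).card : ℝ)

open Classical in
/-- the same for a set of `k`-tuples: positive upper Banach density (in cubes on the diagonal) in the `k`-th
power of every Bohr neighbourhood of `0` -/
def DenseTuples (k : ℕ) (S : Set (Fin k → ℕ)) : Prop :=
  ∀ (J : ℕ) (α : Fin J → ℝ) (ρ : ℝ), 0 < ρ → ∃ δ : ℝ, 0 < δ ∧ ∀ L₀ : ℕ, ∃ L : ℕ, L₀ ≤ L ∧ 0 < L ∧
    ∃ a : ℕ, δ * (L : ℝ) ^ k ≤ (((Fintype.piFinset (fun _ : Fin k => Finset.Ioc a (a + L))).filter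
      (fun h : Fin k → ℕ => h ∈ S ∧ ∀ j i, ∃ m : ℤ, |(h j : ℝ) * α i - m| < ρ)).card : ℝ)

open Classical in
lemma card_inj {k : ℕ} (S : Finset ℕ) (T : Finset (Fin k → ℕ))
    (hT : ∀ f : Fin k → ℕ, Function.Injective f → (∀ j, f j ∈ S) → f ∈ T) :
    (S.card + 1 - k) ^ k ≤ T.card := by
  have h1 : Fintype.card (Fin k ↪ S) = S.card.descFactorial k := by
    rw [Fintype.card_embedding_eq, Fintype.card_coe, Fintype.card_fin]
  have h2 : Fintype.card (Fin k ↪ S) ≤ T.card := by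
    rw [← Finset.card_univ]
    refine Finset.card_le_card_of_injOn (fun e : Fin k ↪ S => fun j => ((e j : S) : ℕ)) ?_ ?_
    · intro e _
      refine hT _ (fun x y hxy => e.injective (Subtype.ext hxy)) fun j => (e j).2
    · intro e _ e' _ h
      refine DFunLike.ext _ _ fun j => Subtype.ext ?_
      exact congrFun h j
  exact (Nat.pow_sub_le_descFactorial _ _).trans (h1 ▸ h2)

open Classical in
theorem tuples (R : Set ℕ) (hR : DenseInBohr R) {r : ℕ} (c : ℕ → Fin r) (k : ℕ) (hk : 1 ≤ k) :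
    DenseTuples k {h | Function.Injective h ∧ (∀ j, 0 < h j ∧ h j ∈ R) ∧
      Patterns c (insert 0 (Finset.univ.image h))} := by
  intro J α ρ hρ
  obtain ⟨J₀, α₀, ρ₀, hρ₀, H⟩ := bohr_stZ c k hk
  obtain ⟨δ, hδ, hL⟩ := hR (J₀ + J) (Fin.append α₀ α) (min ρ₀ ρ) (lt_min hρ₀ hρ)
  obtain ⟨L₁, hL₁⟩ := H ((δ / 2) ^ k / 2) (by positivity)
  obtain ⟨L₂, hL₂⟩ := exists_nat_gt (2 * k / δ)
  refine ⟨(δ / 2) ^ k / 2, by positivity, fun L₀ => ?_⟩
  obtain ⟨L, hL2, hLpos, a, ha⟩ := hL (max L₀ (max L₁ L₂))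
  refine ⟨L, (le_max_left _ _).trans hL2, hLpos, a, ?_⟩
  have hbad := hL₁ L ((le_max_left _ _).trans ((le_max_right _ _).trans hL2)) (fun _ => (a : ℤ))
  have hLL : (2 * k / δ : ℝ) ≤ L := by
    refine hL₂.le.trans ?_
    exact_mod_cast (le_max_right _ _).trans ((le_max_right _ _).trans hL2)
  set S : Finset ℕ := (Finset.Ioc a (a + L)).filter (fun h : ℕ =>
      h ∈ R ∧ ∀ i, ∃ m : ℤ, |(h : ℝ) * (Fin.append α₀ α) i - m| < min ρ₀ ρ) with hS
  set G : Finset (Fin k → ℕ) := (Fintype.piFinset (fun _ : Fin k => Finset.Ioc a (a + L))).filter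
      (fun h : Fin k → ℕ => h ∈ {h : Fin k → ℕ | Function.Injective h ∧
        (∀ j, 0 < h j ∧ h j ∈ R) ∧ Patterns c (insert 0 (Finset.univ.image h))} ∧
        ∀ j i, ∃ m : ℤ, |(h j : ℝ) * α i - m| < ρ) with hG
  set Z : Finset (Fin k → ℤ) := (cube (fun _ : Fin k => (a : ℤ)) L).filter
      (fun a : Fin k → ℤ => (∀ j, a j ∈ Boh α₀ ρ₀) ∧
        ¬ ExtZ c (insert 0 (Finset.univ.image a))) with hZ
  -- the bad tuples
  set B : Finset (Fin k → ℕ) := (Fintype.piFinset (fun _ : Fin k => Finset.Ioc a (a + L))).filter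
      (fun h : Fin k → ℕ => (fun j => (h j : ℤ)) ∈ Z) with hB
  have hBZ : B.card ≤ Z.card := by
    refine Finset.card_le_card_of_injOn (fun h : Fin k → ℕ => fun j => (h j : ℤ)) ?_ ?_
    · intro h hh
      exact (Finset.mem_filter.mp hh).2
    · intro h _ h' _ e
      funext j
      have h7 : (h j : ℤ) = (h' j : ℤ) := congrFun e j
      exact_mod_cast h7
  have hcover : (S.card + 1 - k) ^ k ≤ (G ∪ B).card := by
    refine card_inj S _ fun f hf hfS => ?_
    have h1 : ∀ j, f j ∈ Finset.Ioc a (a + L) := fun j => (Finset.mem_filter.mp (hfS j)).1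
    have h2 : ∀ j, f j ∈ R := fun j => (Finset.mem_filter.mp (hfS j)).2.1
    have h3 : ∀ j i, ∃ m : ℤ, |(f j : ℝ) * (Fin.append α₀ α) i - m| < min ρ₀ ρ :=
      fun j => (Finset.mem_filter.mp (hfS j)).2.2
    have h4 : ∀ j i, ∃ m : ℤ, |(f j : ℝ) * α₀ i - m| < ρ₀ := by
      intro j i
      obtain ⟨m, hm⟩ := h3 j (Fin.castAdd J i)
      rw [Fin.append_left] at hm
      exact ⟨m, hm.trans_le (min_le_left _ _)⟩
    have h5 : ∀ j i, ∃ m : ℤ, |(f j : ℝ) * α i - m| < ρ := by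
      intro j i
      obtain ⟨m, hm⟩ := h3 j (Fin.natAdd J₀ i)
      rw [Fin.append_right] at hm
      exact ⟨m, hm.trans_le (min_le_right _ _)⟩
    have hpi : f ∈ Fintype.piFinset (fun _ : Fin k => Finset.Ioc a (a + L)) :=
      Fintype.mem_piFinset.mpr h1
    have himg : (insert 0 (Finset.univ.image f)).image (fun x : ℕ => (x : ℤ)) =
        insert 0 (Finset.univ.image (fun j => (f j : ℤ))) := by
      rw [Finset.image_insert, Finset.image_image]
      rfl
    by_cases hE : ExtZ c (insert 0 (Finset.univ.image (fun j => (f j : ℤ))))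
    · refine Finset.mem_union_left _ (Finset.mem_filter.mpr ⟨hpi, ⟨hf, fun j => ⟨?_, h2 j⟩, ?_⟩, h5⟩)
      · have := (Finset.mem_Ioc.mp (h1 j)).1
        omega
      · exact patterns_of_extZ c _ (himg ▸ hE)
    · refine Finset.mem_union_right _ (Finset.mem_filter.mpr ⟨hpi, Finset.mem_filter.mpr ⟨?_, ?_, hE⟩⟩)
      · rw [cube, Fintype.mem_piFinset]
        intro j
        have h6 := Finset.mem_Ioc.mp (h1 j)
        rw [Finset.mem_Ioc]
        constructor
        · exact_mod_cast h6.1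
        · exact_mod_cast h6.2
      · intro j i
        obtain ⟨m, hm⟩ := h4 j i
        exact ⟨m, by rw [Int.cast_natCast]; exact hm⟩
  have hU : ((G ∪ B).card : ℝ) ≤ G.card + Z.card := by
    exact_mod_cast (Finset.card_union_le _ _).trans (Nat.add_le_add_left hBZ _)
  have hSk : δ / 2 * L ≤ ((S.card + 1 - k : ℕ) : ℝ) := by
    have h1 : (k : ℝ) ≤ δ / 2 * L := by
      have h2 : 2 * k ≤ L * δ := (div_le_iff₀ hδ).mp hLL
      linarith
    have h3 : (S.card : ℝ) + 1 - k ≤ ((S.card + 1 - k : ℕ) : ℝ) := by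
      have h4 : S.card + 1 ≤ (S.card + 1 - k) + k := by omega
      have h5 : ((S.card + 1 : ℕ) : ℝ) ≤ (((S.card + 1 - k) + k : ℕ) : ℝ) := by exact_mod_cast h4
      push_cast at h5
      linarith
    linarith
  have hfin : (δ / 2 * L) ^ k ≤ ((G ∪ B).card : ℝ) := by
    refine (pow_le_pow_left₀ (by positivity) hSk k).trans ?_
    exact_mod_cast hcover
  rw [mul_pow] at hfin
  have e : (δ / 2) ^ k * (L : ℝ) ^ k = (δ / 2) ^ k / 2 * (L : ℝ) ^ k + (δ / 2) ^ k / 2 * (L : ℝ) ^ k := by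
    ring
  have hgoal : (δ / 2) ^ k / 2 * (L : ℝ) ^ k ≤ (G.card : ℝ) := by linarith
  refine hgoal.trans (Nat.cast_le.mpr (Finset.card_le_card fun x hx => ?_))
  rw [hG] at hx
  simp only [Finset.mem_filter] at hx ⊢
  exact hx

end Pool.Agent.H92.BK
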